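import Pool.Agent.Helper70.Lang.Stmts

/-!
# Packet L4 of MP_c7dfba_nt: Tsen-Lang transitions, system version
-/

namespace Pool.Agent.Helper51.Lang

open Helper70.Lang Polynomial

universe u

/-- Transfer of zeros from `F`-subspaces. -/
theorem transfer (F K : Type u) [Field F] [Field K] [Algebra F K] (j : ℕ) (hF : CProp F j)
    (V : Type u) [AddCommGroup V] [Module K V] [FiniteDimensional K V]
    (ι : Type) [Fintype ι] (e : ι → ℕ) (B : ∀ i, MultilinearMap K (fun _ : Fin (e i) => V) K)
    (he : ∀ i, 1 ≤ e i) (n : ℕ) (b : Module.Basis (Fin n) K V)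
    (W : Submodule F K) [FiniteDimensional F W] (W' : ι → Submodule F K)
    [∀ i, FiniteDimensional F (W' i)]
    (hW : ∀ i (w : Fin (e i) → K), (∀ l, w l ∈ W) → ∀ κ : Fin (e i) → Fin n,
      (∏ l, w l) * B i (fun l => b (κ l)) ∈ W' i)
    (hlt : ∑ i, Module.finrank F (W' i) * (e i) ^ j < n * Module.finrank F W) :
    ∃ x : V, x ≠ 0 ∧ ∀ i, B i (fun _ => x) = 0 := by
  classical
  letI : Module F V := Module.compHom V (algebraMap F K)
  haveI : IsScalarTower F K V := ⟨fun r s v => by
    rw [Algebra.smul_def, mul_smul]; rfl⟩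
  -- the linear map
  let Φ : (Fin n → W) →ₗ[F] V :=
    { toFun := fun x => ∑ l, (x l : K) • b l
      map_add' := fun x y => by
        rw [← Finset.sum_add_distrib]
        apply Finset.sum_congr rfl
        intro l _
        simp [add_smul]
      map_smul' := fun r x => by
        simp only [Finset.smul_sum, RingHom.id_apply]
        apply Finset.sum_congr rfl
        intro l _
        simp only [Pi.smul_apply, Submodule.coe_smul, smul_assoc] }
  have hΦ : ∀ x, Φ x = ∑ l, (x l : K) • b l := fun x => rfl
  have hinj : ∀ x, Φ x = 0 → x = 0 := by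
    intro x hx
    funext l
    have := Fintype.linearIndependent_iff.1 b.linearIndependent (fun l => (x l : K)) (by
      rw [← hΦ]; exact hx) l
    exact Subtype.ext this
  -- coordinates
  let c : ∀ i, Module.Basis (Fin (Module.finrank F (W' i))) F (W' i) :=
    fun i => Module.finBasis F (W' i)
  have hext : ∀ (i : ι) (m : Fin (Module.finrank F (W' i))), ∃ g : K →ₗ[F] F,
      ∀ w : W' i, g (w : K) = (c i).repr w m := by
    intro i m
    obtain ⟨g, hg⟩ := LinearMap.exists_extend ((c i).coord m)
    refine ⟨g, fun w => ?_⟩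
    have := congrArg (fun f => f w) hg
    simpa using this
  choose g hg using hext
  let ι' : Type := Σ i : ι, Fin (Module.finrank F (W' i))
  let B' : ∀ a : ι', MultilinearMap F (fun _ : Fin (e a.1) => (Fin n → W)) F := fun a =>
    (g a.1 a.2).compMultilinearMap
      (((B a.1).restrictScalars F).compLinearMap (fun _ => Φ))
  have hcard : ∑ a : ι', (e a.1) ^ j < Module.finrank F (Fin n → W) := by
    have h1 : ∑ a : ι', (e a.1) ^ j = ∑ i, Module.finrank F (W' i) * (e i) ^ j := by
      rw [Fintype.sum_sigma]
      apply Finset.sum_congr rfl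
      intro i _
      simp
    have h2 : Module.finrank F (Fin n → W) = n * Module.finrank F W := by
      rw [Module.finrank_pi_fintype]
      simp
    rw [h1, h2]
    exact hlt
  obtain ⟨x, hx, hx0⟩ := hF (Fin n → W) ι' (fun a => e a.1) B' (fun a => he a.1) hcard
  refine ⟨Φ x, fun h => hx (hinj x h), ?_⟩
  intro i
  have hmem : B i (fun _ => Φ x) ∈ W' i := by
    have h1 : B i (fun _ => Φ x) =
        ∑ κ : Fin (e i) → Fin n, B i (fun l => (x (κ l) : K) • b (κ l)) :=
      (B i).map_sum (fun _ l => (x l : K) • b l)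
    rw [h1]
    apply Submodule.sum_mem
    intro κ _
    rw [(B i).map_smul_univ (fun l => (x (κ l) : K)) (fun l => b (κ l)), smul_eq_mul]
    exact hW i _ (fun l => (x (κ l)).2) κ
  have hz : (⟨B i (fun _ => Φ x), hmem⟩ : W' i) = 0 := by
    apply (c i).ext_elem
    intro m
    rw [map_zero, Finsupp.zero_apply, ← hg i m]
    exact hx0 ⟨i, m⟩
  exact congrArg Subtype.val hz

/-- Packet L4, first part. -/
theorem cAlg : CAlg.{u} := by
  intro F K _ _ _ _ j hF V _ _ _ ι _ e B he hlt
  classical
  let b : Module.Basis (Fin (Module.finrank K V)) K V := Module.finBasis K V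
  let S : Set K := Set.range
    (fun a : Σ i : ι, (Fin (e i) → Fin (Module.finrank K V)) => B a.1 (fun l => b (a.2 l)))
  haveI : Finite S := Set.finite_range _
  let E := IntermediateField.adjoin F S
  haveI : FiniteDimensional F E :=
    IntermediateField.finiteDimensional_adjoin (fun x _ => Algebra.IsIntegral.isIntegral x)
  let W : Submodule F K := Subalgebra.toSubmodule E.toSubalgebra
  haveI : FiniteDimensional F W := inferInstanceAs (FiniteDimensional F E)
  have hpos : 0 < Module.finrank F W := by
    have : 0 < Module.finrank F E := Module.finrank_pos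
    exact this
  refine transfer F K j hF V ι e B he _ b W (fun _ => W) ?_ ?_
  · intro i w hw κ
    have h1 : ∀ l, w l ∈ E := hw
    have h2 : B i (fun l => b (κ l)) ∈ E := IntermediateField.subset_adjoin F S ⟨⟨i, κ⟩, rfl⟩
    exact E.mul_mem (E.prod_mem (fun l _ => h1 l)) h2
  · rw [← Finset.mul_sum, mul_comm]
    exact Nat.mul_lt_mul_of_pos_right hlt hpos

theorem cprop_succ {K : Type u} [Field K] {j : ℕ} (h : CProp K j) : CProp K (j + 1) := by
  intro V _ _ _ ι _ e B he hlt
  refine h V ι e B he (lt_of_le_of_lt (Finset.sum_le_sum fun i _ => ?_) hlt)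
  exact Nat.pow_le_pow_right (he i) (Nat.le_succ j)

/-- Common denominators. -/
theorem common_denom {F K : Type u} [Field F] [Field K] [Algebra F K] (t : K)
    (ht : ∀ x : K, ∃ r s : F[X], x = aeval t r / aeval t s) {A : Type} [Finite A] (y : A → K) :
    ∃ q : F[X], aeval t q ≠ 0 ∧ ∀ a, ∃ p : F[X], y a * aeval t q = aeval t p := by
  classical
  cases nonempty_fintype A
  suffices h : ∀ s : Finset A, ∃ q : F[X], aeval t q ≠ 0 ∧ ∀ a ∈ s, ∃ p : F[X],
      y a * aeval t q = aeval t p by
    obtain ⟨q, hq, hq'⟩ := h Finset.univ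
    exact ⟨q, hq, fun a => hq' a (Finset.mem_univ a)⟩
  intro s
  induction s using Finset.induction_on with
  | empty => exact ⟨1, by simp, fun a ha => by simp at ha⟩
  | insert a s _ ih =>
      obtain ⟨q, hq, hq'⟩ := ih
      obtain ⟨r, d, hrd⟩ := ht (y a)
      by_cases hd : aeval t d = 0
      · refine ⟨q, hq, ?_⟩
        intro a' ha'
        rcases Finset.mem_insert.1 ha' with rfl | ha'
        · refine ⟨0, ?_⟩
          rw [hrd, hd, div_zero, zero_mul, map_zero]
        · exact hq' a' ha'
      · refine ⟨q * d, ?_, ?_⟩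
        · rw [map_mul]; exact mul_ne_zero hq hd
        intro a' ha'
        rcases Finset.mem_insert.1 ha' with rfl | ha'
        · refine ⟨r * q, ?_⟩
          rw [hrd, map_mul, map_mul]
          field_simp
        · obtain ⟨p, hp⟩ := hq' a' ha'
          refine ⟨p * d, ?_⟩
          rw [map_mul, map_mul, ← mul_assoc, hp]

theorem finrank_degreeLT_map {F K : Type u} [Field F] [Field K] [Algebra F K]
    (f : F[X] →ₗ[F] K) (hf : Function.Injective f) (n : ℕ) :
    FiniteDimensional F (Submodule.map f (degreeLT F n)) ∧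
      Module.finrank F (Submodule.map f (degreeLT F n)) = n := by
  let e1 := (Submodule.equivMapOfInjective f hf (degreeLT F n)).symm.trans (degreeLTEquiv F n)
  refine ⟨e1.symm.finiteDimensional, ?_⟩
  rw [e1.finrank_eq, Module.finrank_fintype_fun_eq_card, Fintype.card_fin]

/-- Generation by one transcendental element. -/
theorem cTrans (F K : Type u) [Field F] [Field K] [Algebra F K] (t : K)
    (ht : ∀ x : K, ∃ r s : F[X], x = aeval t r / aeval t s)
    (htr : Function.Injective (aeval (R := F) t)) (j : ℕ) (hF : CProp F j) :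
    CProp K (j + 1) := by
  intro V _ _ _ ι _ e B he hlt
  classical
  let b : Module.Basis (Fin (Module.finrank K V)) K V := Module.finBasis K V
  obtain ⟨q, hq, hq'⟩ := common_denom t ht
    (fun a : Σ i : ι, (Fin (e i) → Fin (Module.finrank K V)) => B a.1 (fun l => b (a.2 l)))
  choose p hp using hq'
  obtain ⟨c, hc⟩ : ∃ c : ℕ, ∀ a, (p a).natDegree ≤ c :=
    ⟨Finset.univ.sup (fun a => (p a).natDegree),
      fun a => Finset.le_sup (f := fun a => (p a).natDegree) (Finset.mem_univ a)⟩
  set D : ℕ := ∑ i, (c + 1) * (e i) ^ j with hD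
  let s : ℕ := D
  let f : F[X] →ₗ[F] K := (aeval (R := F) t).toLinearMap
  have hf : Function.Injective f := htr
  let f' : F[X] →ₗ[F] K := (LinearMap.mulLeft F (aeval t q)⁻¹).comp f
  have hf' : Function.Injective f' := by
    intro x y hxy
    apply hf
    have h1 : (aeval t q)⁻¹ * f x = (aeval t q)⁻¹ * f y := hxy
    exact mul_left_cancel₀ (inv_ne_zero hq) h1
  haveI : FiniteDimensional F (Submodule.map f (degreeLT F (s + 1))) :=
    (finrank_degreeLT_map f hf (s + 1)).1
  haveI : ∀ i : ι, FiniteDimensional F (Submodule.map f' (degreeLT F (c + e i * s + 1))) :=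
    fun i => (finrank_degreeLT_map f' hf' (c + e i * s + 1)).1
  refine transfer F K j hF V ι e B he _ b (Submodule.map f (degreeLT F (s + 1)))
    (fun i => Submodule.map f' (degreeLT F (c + e i * s + 1))) ?_ ?_
  · intro i w hw κ
    choose v hv hv' using hw
    refine ⟨(∏ l, v l) * p ⟨i, κ⟩, ?_, ?_⟩
    · have h1 : ((∏ l, v l) * p ⟨i, κ⟩).natDegree ≤ c + e i * s := by
        refine natDegree_mul_le.trans ?_
        have h2 : (∏ l, v l).natDegree ≤ e i * s := by
          refine (natDegree_prod_le _ _).trans ?_
          refine (Finset.sum_le_card_nsmul _ _ s ?_).trans ?_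
          · intro l _
            have h7 := mem_degreeLT.1 (hv l)
            by_cases h8 : v l = 0
            · rw [h8]; simp
            · exact Nat.le_of_lt_succ ((natDegree_lt_iff_degree_lt h8).2 h7)
          · simp
        have h3 := hc ⟨i, κ⟩
        omega
      rw [SetLike.mem_coe, mem_degreeLT]
      refine lt_of_le_of_lt degree_le_natDegree ?_
      exact_mod_cast Nat.lt_succ_of_le h1
    · have h1 : ∏ l, w l = f (∏ l, v l) := by
        have : f (∏ l, v l) = aeval t (∏ l, v l) := rfl
        rw [this, map_prod]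
        exact Finset.prod_congr rfl (fun l _ => (hv' l).symm)
      have h2 := hp ⟨i, κ⟩
      simp only at h2
      have h3 : B i (fun l => b (κ l)) = (aeval t q)⁻¹ * aeval t (p ⟨i, κ⟩) := by
        rw [← h2]
        field_simp
      rw [h1, h3]
      have h4 : f' ((∏ l, v l) * p ⟨i, κ⟩) = (aeval t q)⁻¹ * aeval t ((∏ l, v l) * p ⟨i, κ⟩) :=
        rfl
      have h5 : f (∏ l, v l) = aeval t (∏ l, v l) := rfl
      rw [h4, h5, map_mul]
      ring
  · have h1 : Module.finrank F (Submodule.map f (degreeLT F (s + 1))) = s + 1 :=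
      (finrank_degreeLT_map f hf (s + 1)).2
    have h2 : ∀ i : ι, Module.finrank F (Submodule.map f' (degreeLT F (c + e i * s + 1))) =
        c + e i * s + 1 := fun i => (finrank_degreeLT_map f' hf' (c + e i * s + 1)).2
    rw [h1]
    simp only [h2]
    have h3 : ∑ i, (c + e i * s + 1) * (e i) ^ j = D + s * ∑ i, (e i) ^ (j + 1) := by
      rw [hD, Finset.mul_sum, ← Finset.sum_add_distrib]
      apply Finset.sum_congr rfl
      intro i _
      ring
    rw [h3]
    have h4 : s * ∑ i, (e i) ^ (j + 1) + s ≤ Module.finrank K V * s := by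
      have : (∑ i, (e i) ^ (j + 1) + 1) * s ≤ Module.finrank K V * s :=
        Nat.mul_le_mul_right s hlt
      linarith
    have h5 : 0 < Module.finrank K V := by omega
    have h6 : s = D := rfl
    nlinarith

/-- Packet L4, second part. -/
theorem cSimple : CSimple.{u} := by
  intro F K _ _ _ t j hF
  by_cases h : IsAlgebraic F t
  · haveI : Algebra.IsAlgebraic F (IntermediateField.adjoin F ({t} : Set K)) :=
      IntermediateField.isAlgebraic_adjoin_simple h.isIntegral
    exact cprop_succ (cAlg F _ j hF)
  · refine cTrans F _ (IntermediateField.AdjoinSimple.gen F t) ?_ ?_ j hF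
    · intro x
      obtain ⟨r, s, hrs⟩ := (IntermediateField.mem_adjoin_simple_iff F (x : K)).1 x.2
      refine ⟨r, s, ?_⟩
      apply Subtype.ext
      rw [hrs]
      simp
    · rw [injective_iff_map_eq_zero]
      intro p hp
      by_contra hp0
      apply h
      refine ⟨p, hp0, ?_⟩
      have := congrArg (fun z : IntermediateField.adjoin F ({t} : Set K) => (z : K)) hp
      simpa using this

end Pool.Agent.Helper51.Lang
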