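import Pool.Agent.Helper70.Lang.Stmts

/-!
# Packet L5 of MP_c7dfba_nt: Brauer's theorem
-/

namespace Pool.Agent.Helper51.Lang

open Helper70.Lang

universe u

/-- `SysBound` with an arbitrary index type. -/
def SysG (K : Type u) [Field K] (d m N : ℕ) : Prop :=
  ∀ (V : Type u) [AddCommGroup V] [Module K V] [FiniteDimensional K V] (ι : Type) [Fintype ι]
    (e : ι → ℕ) (B : ∀ i, MultilinearMap K (fun _ : Fin (e i) => V) K), Fintype.card ι ≤ m →
    (∀ i, 1 ≤ e i ∧ e i ≤ d) → N ≤ Module.finrank K V →
      ∃ x : V, x ≠ 0 ∧ ∀ i, B i (fun _ => x) = 0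

/-- Independent vectors on which the forms are diagonal. -/
def VecG (K : Type u) [Field K] (d r M N : ℕ) : Prop :=
  ∀ (V : Type u) [AddCommGroup V] [Module K V] [FiniteDimensional K V] (ι : Type) [Fintype ι]
    (e : ι → ℕ) (B : ∀ i, MultilinearMap K (fun _ : Fin (e i) => V) K), Fintype.card ι ≤ r →
    (∀ i, 1 ≤ e i ∧ e i ≤ d + 1) → N ≤ Module.finrank K V →
      ∃ v : Fin M → V, LinearIndependent K v ∧ ∀ i (κ : Fin (e i) → Fin M),
        (e i ≤ d ∨ ∃ l l', κ l ≠ κ l') → B i (fun l => v (κ l)) = 0

theorem vec_succ (K : Type u) [Field K] (d r M N N' : ℕ) (h : VecG K d r M N)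
    (h' : SysG K d (r * (M + 1) ^ (d + 1)) N') : VecG K d r (M + 1) (N + (N' + M)) := by
  classical
  intro V _ _ _ ι _ e B hc he hN
  obtain ⟨v, hv, hv'⟩ := h V ι e B hc he (by omega)
  obtain ⟨V1, hV1⟩ := Submodule.exists_isCompl (Submodule.span K (Set.range v))
  have hfr : Module.finrank K (Submodule.span K (Set.range v)) + Module.finrank K V1 =
      Module.finrank K V := Submodule.finrank_add_eq_of_isCompl hV1
  have hM : Module.finrank K (Submodule.span K (Set.range v)) = M := by
    rw [finrank_span_eq_card hv, Fintype.card_fin]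
  -- the new system
  let J : Type := Σ i : ι, {κ : Fin (e i) → Fin (M + 1) //
    (∃ l, κ l = Fin.last M) ∧ (e i ≤ d ∨ ∃ l, κ l ≠ Fin.last M)}
  have hcard : Fintype.card J ≤ r * (M + 1) ^ (d + 1) := by
    rw [Fintype.card_sigma]
    refine (Finset.sum_le_card_nsmul _ _ ((M + 1) ^ (d + 1)) ?_).trans ?_
    · intro i _
      refine (Fintype.card_subtype_le _).trans ?_
      rw [Fintype.card_fun, Fintype.card_fin, Fintype.card_fin]
      exact Nat.pow_le_pow_right (Nat.succ_pos M) (he i).2
    · rw [smul_eq_mul, Finset.card_univ]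
      exact Nat.mul_le_mul_right _ hc
  let v0 : Fin (M + 1) → V := Fin.snoc v 0
  let B' : ∀ a : J, MultilinearMap K
      (fun _ : Fin (Fintype.card {l : Fin (e a.1) // a.2.1 l = Fin.last M}) => V1) K := fun a =>
    (((B a.1).domDomRestrict (fun l => a.2.1 l = Fin.last M)
      (fun l => v0 (a.2.1 l.1))).compLinearMap (fun _ => V1.subtype)).domDomCongr
      (Fintype.equivFin _)
  have hB' : ∀ (a : J) (x : V1), B' a (fun _ => x) =
      B a.1 (fun l => (Fin.snoc v (x : V) : Fin (M + 1) → V) (a.2.1 l)) := by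
    intro a x
    have h1 : B' a (fun _ => x) = B a.1 (fun l => if h : a.2.1 l = Fin.last M then (x : V) else
      v0 (a.2.1 l)) := rfl
    rw [h1]
    congr 1
    funext l
    split_ifs with h2
    · rw [h2, Fin.snoc_last]
    · obtain ⟨m, hm⟩ := Fin.exists_castSucc_eq.2 h2
      rw [← hm]
      simp [v0]
  obtain ⟨x, hx, hx0⟩ := h' V1 J
    (fun a => Fintype.card {l : Fin (e a.1) // a.2.1 l = Fin.last M}) B' hcard (by
      rintro ⟨i, κ, ⟨l, hl⟩, hκ⟩
      simp only
      constructor
      · exact Fintype.card_pos_iff.2 ⟨⟨l, hl⟩⟩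
      · rcases hκ with hκ | ⟨l', hl'⟩
        · refine (Fintype.card_subtype_le _).trans ?_
          simpa using hκ
        · have h1 : Fintype.card {l : Fin (e i) // κ l = Fin.last M} < Fintype.card (Fin (e i)) :=
            Fintype.card_subtype_lt (x := l') hl'
          rw [Fintype.card_fin] at h1
          have := (he i).2
          omega) (by omega)
  refine ⟨Fin.snoc v (x : V), ?_, ?_⟩
  · rw [linearIndependent_finSnoc]
    refine ⟨hv, ?_⟩
    intro h1
    have h2 : (x : V) ∈ Submodule.span K (Set.range v) ⊓ V1 := ⟨h1, x.2⟩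
    rw [hV1.inf_eq_bot, Submodule.mem_bot] at h2
    exact hx (Subtype.ext h2)
  · intro i κ hκ
    by_cases h1 : ∃ l, κ l = Fin.last M
    · have h2 : e i ≤ d ∨ ∃ l, κ l ≠ Fin.last M := by
        rcases hκ with h | ⟨l, l', hl⟩
        · exact Or.inl h
        · right
          by_contra hcon
          push Not at hcon
          exact hl ((hcon l).trans (hcon l').symm)
      have h3 := hx0 ⟨i, κ, h1, h2⟩
      rw [hB'] at h3
      exact h3
    · push Not at h1
      have h2 : ∀ l, ∃ m : Fin M, m.castSucc = κ l := fun l => Fin.exists_castSucc_eq.2 (h1 l)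
      choose κ' hκ' using h2
      have h3 := hv' i κ' (by
        rcases hκ with h | ⟨l, l', hl⟩
        · exact Or.inl h
        · right
          refine ⟨l, l', fun h4 => hl ?_⟩
          rw [← hκ' l, ← hκ' l', h4])
      rw [← h3]
      congr 1
      funext l
      rw [← hκ' l, Fin.snoc_castSucc]

/-- Simultaneous diagonal forms. -/
theorem diag_sys (K : Type u) [Field K] (D q : ℕ) (hD : DiagBound K D q) (hD1 : 1 ≤ D) : ∀ r : ℕ,
    ∀ (X : Type) [Fintype X], Fintype.card X = q ^ r → ∀ a : Fin r → X → K,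
      ∃ t : X → K, t ≠ 0 ∧ ∀ i, ∑ k, a i k * t k ^ D = 0
  | 0, X, _, hX, a => by
      refine ⟨fun _ => 1, ?_, fun i => i.elim0⟩
      have : 0 < Fintype.card X := by rw [hX]; simp
      obtain ⟨x⟩ := Fintype.card_pos_iff.1 this
      intro h
      exact one_ne_zero (congrArg (fun f => f x) h)
  | r + 1, X, _, hX, a => by
      classical
      have e : X ≃ Fin q × Fin (q ^ r) := Fintype.equivOfCardEq (by
        rw [hX, Fintype.card_prod, Fintype.card_fin, Fintype.card_fin, pow_succ, mul_comm])
      have h1 : ∀ b : Fin q, ∃ t : Fin (q ^ r) → K, t ≠ 0 ∧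
          ∀ i : Fin r, ∑ k, a i.castSucc (e.symm (b, k)) * t k ^ D = 0 := fun b =>
        diag_sys K D q hD hD1 r (Fin (q ^ r)) (Fintype.card_fin _)
          (fun i k => a i.castSucc (e.symm (b, k)))
      choose t ht ht' using h1
      obtain ⟨s, hs, hs'⟩ := hD (fun b => ∑ k, a (Fin.last r) (e.symm (b, k)) * t b k ^ D)
      refine ⟨fun x => s (e x).1 * t (e x).1 (e x).2, ?_, ?_⟩
      · intro h
        apply hs
        funext b
        by_contra hb
        apply ht b
        funext k
        have h2 := congrArg (fun f => f (e.symm (b, k))) h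
        simp only [Equiv.apply_symm_apply, Pi.zero_apply, mul_eq_zero] at h2
        rcases h2 with h2 | h2
        · exact absurd h2 hb
        · exact h2
      · intro i
        have h2 : ∑ x, a i x * (s (e x).1 * t (e x).1 (e x).2) ^ D =
            ∑ b, (∑ k, a i (e.symm (b, k)) * t b k ^ D) * s b ^ D := by
          rw [← e.symm.sum_comp, Fintype.sum_prod_type]
          apply Finset.sum_congr rfl
          intro b _
          rw [Finset.sum_mul]
          apply Finset.sum_congr rfl
          intro k _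
          simp only [Equiv.apply_symm_apply]
          rw [mul_pow]
          ring
        rw [h2]
        refine Fin.lastCases ?_ (fun i => ?_) i
        · exact hs'
        · apply Finset.sum_eq_zero
          intro b _
          rw [ht' b i, zero_mul]

theorem diag_sys' (K : Type u) [Field K] (D q : ℕ) (hD : DiagBound K D q) (hD1 : 1 ≤ D) (r : ℕ)
    (ι : Type) [Fintype ι] (hι : Fintype.card ι ≤ r) (a : ι → Fin (q ^ r) → K) :
    ∃ t : Fin (q ^ r) → K, t ≠ 0 ∧ ∀ i, ∑ k, a i k * t k ^ D = 0 := by
  obtain ⟨f⟩ := Function.Embedding.nonempty_of_card_le (α := ι) (β := Fin r) (by simpa using hι)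
  obtain ⟨t, ht, ht'⟩ := diag_sys K D q hD hD1 r (Fin (q ^ r)) (Fintype.card_fin _)
    (Function.extend f a 0)
  refine ⟨t, ht, fun i => ?_⟩
  have := ht' (f i)
  rw [f.injective.extend_apply] at this
  exact this

theorem sys_of_vec (K : Type u) [Field K] (d r q N : ℕ) (hD : DiagBound K (d + 1) q)
    (h : VecG K d r (q ^ r) N) : SysG K (d + 1) r N := by
  classical
  intro V _ _ _ ι _ e B hc he hN
  obtain ⟨v, hv, hv'⟩ := h V ι e B hc he hN
  obtain ⟨t, ht, ht'⟩ := diag_sys' K (d + 1) q hD (by omega) r ι hc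
    (fun i k => if e i = d + 1 then B i (fun _ => v k) else 0)
  refine ⟨∑ k, t k • v k, ?_, ?_⟩
  · intro h1
    apply ht
    funext k
    exact Fintype.linearIndependent_iff.1 hv t h1 k
  · intro i
    have h1 : B i (fun _ => ∑ k, t k • v k) =
        ∑ κ : Fin (e i) → Fin (q ^ r), B i (fun l => t (κ l) • v (κ l)) :=
      (B i).map_sum (fun _ k => t k • v k)
    have h2 : ∀ κ : Fin (e i) → Fin (q ^ r), B i (fun l => t (κ l) • v (κ l)) =
        (∏ l, t (κ l)) * B i (fun l => v (κ l)) := by
      intro κ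
      rw [(B i).map_smul_univ (fun l => t (κ l)) (fun l => v (κ l)), smul_eq_mul]
    rw [h1]
    simp only [h2]
    by_cases h3 : e i ≤ d
    · apply Finset.sum_eq_zero
      intro κ _
      rw [hv' i κ (Or.inl h3), mul_zero]
    · have h4 : e i = d + 1 := le_antisymm (he i).2 (by omega)
      haveI : Nonempty (Fin (e i)) := ⟨⟨0, (he i).1⟩⟩
      have h5 : ∑ κ : Fin (e i) → Fin (q ^ r), (∏ l, t (κ l)) * B i (fun l => v (κ l)) =
          ∑ k : Fin (q ^ r), (∏ _l : Fin (e i), t k) * B i (fun _ => v k) := by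
        symm
        apply Finset.sum_of_injOn (e := fun k => fun _ => k)
        · intro k _ k' _ hkk
          exact congrFun hkk ⟨0, (he i).1⟩
        · intro k _
          simp
        · intro κ _ hκ
          rw [hv' i κ (Or.inr ?_), mul_zero]
          by_contra hcon
          push Not at hcon
          apply hκ
          refine ⟨κ ⟨0, (he i).1⟩, by simp, ?_⟩
          funext l
          exact (hcon l _).symm
        · intro k _
          rfl
      rw [h5]
      have h6 := ht' i
      simp only [if_pos h4] at h6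
      rw [← h6]
      apply Finset.sum_congr rfl
      intro k _
      have h7 : t k ^ e i = t k ^ (d + 1) := congrArg (fun n => t k ^ n) h4
      rw [Finset.prod_const, Finset.card_univ, Fintype.card_fin, h7, mul_comm]

theorem sysG (φ : ℕ → ℕ) : ∀ d r : ℕ, ∃ N : ℕ, ∀ (K : Type u) [Field K],
    (∀ e, 1 ≤ e → DiagBound K e (φ e)) → SysG K d r N
  | 0, r => by
      refine ⟨1, ?_⟩
      intro K _ _ V _ _ _ ι _ e B _ he hN
      haveI : Nontrivial V := Module.nontrivial_of_finrank_pos (R := K) (by omega)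
      obtain ⟨x, hx⟩ := exists_ne (0 : V)
      exact ⟨x, hx, fun i => by have := he i; omega⟩
  | d + 1, r => by
      have ih := sysG φ d
      have h1 : ∀ M : ℕ, ∃ N : ℕ, ∀ (K : Type u) [Field K],
          (∀ e, 1 ≤ e → DiagBound K e (φ e)) → VecG K d r M N := by
        intro M
        induction M with
        | zero =>
            refine ⟨0, ?_⟩
            intro K _ _ V _ _ _ ι _ e B _ he _
            refine ⟨Fin.elim0, linearIndependent_empty_type, ?_⟩
            intro i κ _
            exact (κ ⟨0, (he i).1⟩).elim0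
        | succ M hM =>
            obtain ⟨N, hN⟩ := hM
            obtain ⟨N', hN'⟩ := ih (r * (M + 1) ^ (d + 1))
            exact ⟨N + (N' + M), fun K _ hK => vec_succ K d r M N N' (hN K hK) (hN' K hK)⟩
      obtain ⟨N, hN⟩ := h1 (φ (d + 1) ^ r)
      exact ⟨N, fun K _ hK => sys_of_vec K d r (φ (d + 1)) N (hK (d + 1) (by omega)) (hN K hK)⟩

/-- Packet L5. -/
theorem brauer : Brauer.{u} := by
  intro φ d r
  obtain ⟨N, hN⟩ := sysG.{u} φ d r
  refine ⟨N, ?_⟩
  intro K _ hK V _ _ _ e B he hN'
  exact hN K hK V (Fin r) e B (by simp) he hN'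

end Pool.Agent.Helper51.Lang
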