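import Pool.Agent.Helper48.Lang.Goals

/-!
# Project LANG, packet CERT
-/

set_option autoImplicit false

namespace Pool.Agent.Helper51.Lang

open Pool.Agent.Helper48.Lang Matrix
open scoped MatrixOrder

theorem gen_inv {N k : ℕ} (A : Matrix (Fin k) (Fin N) ℝ) :
    ∃ W : Matrix (Fin N) (Fin k) ℝ, A * W * A = A := by
  classical
  let f : (Fin N → ℝ) →ₗ[ℝ] (Fin k → ℝ) := Matrix.toLin' A
  obtain ⟨g, hg⟩ := f.rangeRestrict.exists_rightInverse_of_surjective f.range_rangeRestrict
  obtain ⟨h, hh⟩ := LinearMap.exists_extend g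
  refine ⟨LinearMap.toMatrix' h, ?_⟩
  have key : f ∘ₗ h ∘ₗ f = f := by
    ext1 x
    apply LinearMap.ext
    intro y
    have h1 : h (f (LinearMap.single ℝ (fun _ => ℝ) x y)) = g (f.rangeRestrict (LinearMap.single ℝ (fun _ => ℝ) x y)) := by
      rw [← hh]; rfl
    have h2 := LinearMap.congr_fun hg (f.rangeRestrict (LinearMap.single ℝ (fun _ => ℝ) x y))
    have h3 := congrArg Subtype.val h2
    simp only [LinearMap.comp_apply, LinearMap.id_apply] at h3 ⊢
    rw [h1]
    exact h3
  have h4 : LinearMap.toMatrix' f = A := by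
    simp only [f]
    exact LinearMap.toMatrix'_toLin' A
  have h5 := congrArg LinearMap.toMatrix' key
  rw [LinearMap.toMatrix'_comp, LinearMap.toMatrix'_comp, h4] at h5
  rw [Matrix.mul_assoc]
  exact h5

theorem c_cert : S_CERT := by
  classical
  intro N k S A hS hpos
  let A' : Matrix (Fin k) (Fin N) ℝ := Matrix.of A
  obtain ⟨W, hW⟩ := gen_inv A'
  let P : Matrix (Fin N) (Fin N) ℝ := 1 - W * A'
  have hAP : A' * P = 0 := by
    simp only [P, Matrix.mul_sub, Matrix.mul_one, ← Matrix.mul_assoc, hW, sub_self]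
  have hPSD : (Pᵀ * S * P).PosSemidef := by
    refine Matrix.PosSemidef.of_dotProduct_mulVec_nonneg ?_ ?_
    · rw [Matrix.IsHermitian, Matrix.conjTranspose_eq_transpose_of_trivial, Matrix.transpose_mul,
        Matrix.transpose_mul, hS, Matrix.transpose_transpose, Matrix.mul_assoc]
    · intro x
      have h := hpos (P *ᵥ x) (by
        intro l
        have h1 : (A' *ᵥ (P *ᵥ x)) l = 0 := by
          rw [Matrix.mulVec_mulVec, hAP, Matrix.zero_mulVec]; rfl
        simpa [Matrix.mulVec, dotProduct, A'] using h1)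
      have h2 : star x ⬝ᵥ ((Pᵀ * S * P) *ᵥ x) = ∑ p, ∑ q, S p q * ((P *ᵥ x) p * (P *ᵥ x) q) := by
        rw [star_trivial, ← Matrix.mulVec_mulVec, ← Matrix.mulVec_mulVec, Matrix.dotProduct_mulVec,
          Matrix.vecMul_transpose]
        simp only [dotProduct]
        refine Finset.sum_congr rfl fun p _ => ?_
        rw [show (S *ᵥ (P *ᵥ x)) p = ∑ q, S p q * (P *ᵥ x) q from rfl, Finset.mul_sum]
        refine Finset.sum_congr rfl fun q _ => ?_
        ring
      rw [h2]
      exact h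
  obtain ⟨L, hL⟩ := CStarAlgebra.nonneg_iff_eq_star_mul_self.mp hPSD.nonneg
  rw [Matrix.star_eq_conjTranspose, Matrix.conjTranspose_eq_transpose_of_trivial] at hL
  let M : Matrix (Fin k) (Fin N) ℝ := Wᵀ * S * P + (1 / 2 : ℝ) • (Wᵀ * S * W * A')
  refine ⟨L, M, ?_⟩
  have hmain : S = Lᵀ * L + (Mᵀ * A' + A'ᵀ * M) := by
    have h1 : (1 : Matrix (Fin N) (Fin N) ℝ) = P + W * A' := by simp [P]
    have h2 : S = (P + W * A')ᵀ * S * (P + W * A') := by
      rw [← h1]; simp
    rw [← hL]
    conv_lhs => rw [h2]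
    simp only [M, Matrix.transpose_add, Matrix.transpose_mul, Matrix.transpose_smul,
      Matrix.add_mul, Matrix.mul_add, Matrix.transpose_transpose, hS, Matrix.mul_smul,
      Matrix.smul_mul, Matrix.mul_assoc]
    have h3 : (A'ᵀ * (Wᵀ * (S * (W * A')))) = (1 / 2 : ℝ) • (A'ᵀ * (Wᵀ * (S * (W * A'))))
        + (1 / 2 : ℝ) • (A'ᵀ * (Wᵀ * (S * (W * A')))) := by
      rw [← add_smul]; norm_num
    conv_lhs => rw [h3]
    abel
  intro p q
  have h := congrFun (congrFun hmain p) q
  rw [h]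
  simp only [Matrix.add_apply, Matrix.mul_apply, Matrix.transpose_apply, A', Matrix.of_apply]
  rw [← Finset.sum_add_distrib]
  congr 1
  refine Finset.sum_congr rfl fun l _ => ?_
  ring

end Pool.Agent.Helper51.Lang
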