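import Pool.Agent.Helper70.Lang.Stmts

/-!
# Packet L3 of MP_c7dfba_nt: algebraically closed fields are `C_0`

We use Krull's height theorem and the Nullstellensatz.
-/

namespace Pool.Agent.Helper51.Lang

open MvPolynomial Helper70.Lang

universe u

section Height

variable (k : Type u) [Field k] (n : ℕ)

/-- Put the first `j` variables equal to zero. -/
noncomputable def phi (j : ℕ) : MvPolynomial (Fin n) k →ₐ[k] MvPolynomial (Fin n) k :=
  aeval (fun i => if (i : ℕ) < j then 0 else X i)

theorem phi_X (j : ℕ) (i : Fin n) : phi k n j (X i) = if (i : ℕ) < j then 0 else X i := by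
  simp [phi]

theorem phi_phi (j : ℕ) (p : MvPolynomial (Fin n) k) :
    phi k n (j + 1) (phi k n j p) = phi k n (j + 1) p := by
  have h : (phi k n (j + 1)).comp (phi k n j) = phi k n (j + 1) := by
    apply MvPolynomial.algHom_ext
    intro i
    rw [AlgHom.comp_apply, phi_X]
    split_ifs with h1
    · rw [map_zero, phi_X, if_pos (by omega)]
    · rfl
  exact congrArg (fun f => f p) h

/-- The ideal of a coordinate subspace. -/
noncomputable def PP (j : ℕ) : Ideal (MvPolynomial (Fin n) k) := RingHom.ker (phi k n j)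

instance (j : ℕ) : (PP k n j).IsPrime := RingHom.ker_isPrime _

theorem mem_PP {j : ℕ} {p : MvPolynomial (Fin n) k} : p ∈ PP k n j ↔ phi k n j p = 0 :=
  RingHom.mem_ker

theorem PP_lt {j : ℕ} (hj : j < n) : PP k n j < PP k n (j + 1) := by
  refine lt_of_le_of_ne ?_ ?_
  · intro p hp
    rw [mem_PP] at hp ⊢
    rw [← phi_phi, hp, map_zero]
  · intro h
    have h1 : X (⟨j, hj⟩ : Fin n) ∈ PP k n (j + 1) := by
      rw [mem_PP, phi_X, if_pos (Nat.lt_succ_self j)]
    rw [← h, mem_PP, phi_X, if_neg (lt_irrefl j)] at h1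
    exact MvPolynomial.X_ne_zero _ h1

theorem height_PP : ∀ j : ℕ, j ≤ n → (j : ℕ∞) ≤ (PP k n j).height
  | 0, _ => by simp
  | j + 1, hj => by
      have h1 := height_PP j (by omega)
      have h2 := Ideal.height_add_one_le_of_lt_of_isPrime (PP_lt k n (j := j) (by omega))
      push_cast
      exact le_trans (add_le_add_left h1 1) h2

theorem phi_n (p : MvPolynomial (Fin n) k) : phi k n n p = C (eval (0 : Fin n → k) p) := by
  have h : phi k n n = (Algebra.ofId k (MvPolynomial (Fin n) k)).comp (aeval (0 : Fin n → k)) := by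
    apply MvPolynomial.algHom_ext
    intro i
    rw [phi_X, if_pos i.2]
    simp
  have h2 := congrArg (fun f => f p) h
  simp only [AlgHom.comp_apply] at h2
  rw [h2]
  rfl

theorem mem_PPn {p : MvPolynomial (Fin n) k} : p ∈ PP k n n ↔ eval (0 : Fin n → k) p = 0 := by
  rw [mem_PP, phi_n]
  constructor
  · intro h
    exact (C_injective (Fin n) k) (by rw [h, C_0])
  · intro h
    rw [h, C_0]

end Height

/-- Fewer than `n` polynomials vanishing at `0` have another common zero. -/
theorem exists_zero (k : Type u) [Field k] [IsAlgClosed k] (n : ℕ) {ι : Type} [Fintype ι]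
    (f : ι → MvPolynomial (Fin n) k) (h0 : ∀ i, eval (0 : Fin n → k) (f i) = 0)
    (hc : Fintype.card ι < n) : ∃ x : Fin n → k, x ≠ 0 ∧ ∀ i, eval x (f i) = 0 := by
  classical
  by_contra hcon
  push Not at hcon
  set J : Ideal (MvPolynomial (Fin n) k) := Ideal.span (Set.range f) with hJ
  have hzero : zeroLocus k J ⊆ {0} := by
    intro x hx
    by_contra hx0
    obtain ⟨i, hi⟩ := hcon x hx0
    apply hi
    have := (mem_zeroLocus_iff.1 hx) (f i) (Ideal.subset_span ⟨i, rfl⟩)
    simpa [aeval_eq_eval] using this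
  have hmin : PP k n n ∈ J.minimalPrimes := by
    refine ⟨⟨inferInstance, ?_⟩, ?_⟩
    · rw [hJ, Ideal.span_le]
      rintro _ ⟨i, rfl⟩
      exact (mem_PPn k n).2 (h0 i)
    · rintro Q ⟨hQ, hJQ⟩ _ p hp
      have h1 : p ∈ vanishingIdeal k (zeroLocus k J) := by
        rw [mem_vanishingIdeal_iff]
        intro x hx
        have hx0 : x = 0 := hzero hx
        rw [hx0]
        simpa [aeval_eq_eval] using (mem_PPn k n).1 hp
      rw [vanishingIdeal_zeroLocus_eq_radical] at h1
      exact (hQ.isRadical.radical_le_iff.2 hJQ) h1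
  have h1 := Ideal.height_le_card_of_mem_minimalPrimes_span (Set.finite_range f) hmin
  have h2 := height_PP k n n le_rfl
  have h3 : (n : ℕ∞) ≤ ((Set.range f).ncard : ℕ∞) := h2.trans h1
  have h4 : n ≤ (Set.range f).ncard := by exact_mod_cast h3
  have h5 : (Set.range f).ncard ≤ Fintype.card ι := by
    rw [← Set.image_univ]
    refine (Set.ncard_image_le Set.finite_univ).trans ?_
    rw [Set.ncard_univ, Nat.card_eq_fintype_card]
  omega

/-- Packet L3. -/
theorem cZero : CZero.{u} := by
  intro k _ _ V _ _ _ ι _ e B he hlt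
  classical
  set n := Module.finrank k V with hn
  let b : Module.Basis (Fin n) k V := Module.finBasis k V
  let f : ι → MvPolynomial (Fin n) k := fun i =>
    ∑ κ : Fin (e i) → Fin n, C (B i (fun l => b (κ l))) * ∏ l, X (κ l)
  have hf : ∀ (x : Fin n → k) (i : ι), eval x (f i) = B i (fun _ => ∑ j, x j • b j) := by
    intro x i
    have h1 : B i (fun _ => ∑ j, x j • b j) =
        ∑ κ : Fin (e i) → Fin n, B i (fun l => x (κ l) • b (κ l)) :=
      (B i).map_sum (fun _ j => x j • b j)
    rw [h1]
    simp only [f, map_sum, map_mul, eval_C, map_prod, eval_X]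
    apply Finset.sum_congr rfl
    intro κ _
    rw [(B i).map_smul_univ (fun l => x (κ l)) (fun l => b (κ l)), smul_eq_mul, mul_comm]
  have hcard : Fintype.card ι < n := by
    simpa using hlt
  obtain ⟨x, hx, hx0⟩ := exists_zero k n f (fun i => by
    rw [hf]
    haveI : Nonempty (Fin (e i)) := ⟨⟨0, he i⟩⟩
    simp only [Pi.zero_apply, zero_smul, Finset.sum_const_zero]
    exact (B i).map_zero) hcard
  refine ⟨∑ j, x j • b j, ?_, fun i => by rw [← hf]; exact hx0 i⟩
  intro h
  apply hx
  funext j
  exact (Fintype.linearIndependent_iff.1 b.linearIndependent x h) j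

end Pool.Agent.Helper51.Lang
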