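import Pool.Agent.Helper70.Lang.Stmts

/-!
# Packet L1 of MP_c7dfba_nt: the fundamental theorem of algebra for real closed fields
-/

namespace Pool.Agent.Helper51.Lang.FTA

open Helper70.Lang Polynomial

universe u v

section Squares

variable {R : Type v} [Field R] [IsRealClosed R]

theorem add_sq_eq_zero {a b : R} (h : a ^ 2 + b ^ 2 = 0) : a = 0 ∧ b = 0 := by
  have key : ∀ x y : R, x ^ 2 + y ^ 2 = 0 → x = 0 := by
    intro x y hxy
    by_contra hx
    have h1 : (1 : R) + (y / x) * (y / x) = 0 := by
      field_simp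
      linear_combination hxy
    exact IsSemireal.one_add_ne_zero (IsSumSq.mul_self (y / x)) h1
  exact ⟨key a b h, key b a (by rw [add_comm]; exact h)⟩

theorem add_sq_add_sq_eq_zero {a b c : R} (h : a ^ 2 + b ^ 2 + c ^ 2 = 0) : c = 0 := by
  by_contra hc
  have h1 : (1 : R) + ((a / c) * (a / c) + (b / c) * (b / c)) = 0 := by
    field_simp
    linear_combination h
  exact IsSemireal.one_add_ne_zero ((IsSumSq.mul_self (a / c)).add (IsSumSq.mul_self (b / c))) h1

theorem sq_or_neg_sq (x : R) : (∃ y, x = y ^ 2) ∨ (∃ y, x = -y ^ 2) := by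
  rcases IsRealClosed.isSquare_or_isSquare_neg x with ⟨y, hy⟩ | ⟨y, hy⟩
  · exact Or.inl ⟨y, by rw [hy]; ring⟩
  · exact Or.inr ⟨y, by linear_combination (-1 : R) * hy⟩

theorem sum_sq_eq_sq (a b : R) : ∃ c, a ^ 2 + b ^ 2 = c ^ 2 := by
  rcases sq_or_neg_sq (a ^ 2 + b ^ 2) with h | ⟨y, hy⟩
  · exact h
  · have h1 : y = 0 := add_sq_add_sq_eq_zero (a := a) (b := b) (c := y) (by rw [hy]; ring)
    exact ⟨0, by rw [hy, h1]; ring⟩

/-- Square roots of `a + b I`. -/
theorem exists_sqrt (a b : R) : ∃ p q : R, p ^ 2 - q ^ 2 = a ∧ 2 * p * q = b := by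
  have h2 : (2 : R) ≠ 0 := by exact_mod_cast (two_ne_zero : (2 : ℕ) ≠ 0)
  obtain ⟨c, hc⟩ := sum_sq_eq_sq a b
  -- either p^2 = (c + a)/2, q^2 = (c - a)/2 up to sign
  have key : ∀ p q : R, p ^ 2 - q ^ 2 = a → (2 * p * q) ^ 2 = b ^ 2 →
      ∃ p q : R, p ^ 2 - q ^ 2 = a ∧ 2 * p * q = b := by
    intro p q h h'
    rcases sq_eq_sq_iff_eq_or_eq_neg.1 h' with h3 | h3
    · exact ⟨p, q, h, h3⟩
    · exact ⟨p, -q, by rw [← h]; ring, by linear_combination (-1 : R) * h3⟩
  set u := (c + a) / 2 with hu
  set w := (c - a) / 2 with hw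
  have huw : 4 * (u * w) = b ^ 2 := by
    rw [hu, hw]
    field_simp
    linear_combination (-4 : R) * hc
  have huw' : u - w = a := by
    rw [hu, hw]
    field_simp
    ring
  have hc' : u + w = c := by
    rw [hu, hw]
    field_simp
    ring
  rcases sq_or_neg_sq u with ⟨p, hp⟩ | ⟨p, hp⟩ <;> rcases sq_or_neg_sq w with ⟨q, hq⟩ | ⟨q, hq⟩
  · exact key p q (by rw [← huw', hp, hq]) (by rw [← huw, hp, hq]; ring)
  · -- u = p^2, w = -q^2
    have h3 : b ^ 2 + (2 * p * q) ^ 2 = 0 := by
      rw [← huw, hp, hq]; ring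
    obtain ⟨hb, hpq⟩ := add_sq_eq_zero h3
    have hpq' : p = 0 ∨ q = 0 := by
      rcases mul_eq_zero.1 hpq with h | h
      · rcases mul_eq_zero.1 h with h | h
        · exact absurd h h2
        · exact Or.inl h
      · exact Or.inr h
    rcases hpq' with h | h
    · refine ⟨q, 0, ?_, ?_⟩
      · rw [← huw', hp, hq, h]; ring
      · rw [hb]; ring
    · refine ⟨p, 0, ?_, ?_⟩
      · rw [← huw', hp, hq, h]; ring
      · rw [hb]; ring
  · have h3 : b ^ 2 + (2 * p * q) ^ 2 = 0 := by
      rw [← huw, hp, hq]; ring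
    obtain ⟨hb, hpq⟩ := add_sq_eq_zero h3
    have hpq' : p = 0 ∨ q = 0 := by
      rcases mul_eq_zero.1 hpq with h | h
      · rcases mul_eq_zero.1 h with h | h
        · exact absurd h h2
        · exact Or.inl h
      · exact Or.inr h
    rcases hpq' with h | h
    · refine ⟨0, q, ?_, ?_⟩
      · rw [← huw', hp, hq, h]; ring
      · rw [hb]; ring
    · refine ⟨0, p, ?_, ?_⟩
      · rw [← huw', hp, hq, h]; ring
      · rw [hb]; ring
  · exact key q p (by rw [← huw', hp, hq]; ring) (by rw [← huw, hp, hq]; ring)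

/-- Finite extensions of odd degree are trivial. -/
theorem finrank_eq_one {L : Type u} [Field L] [Algebra R L] [FiniteDimensional R L]
    (h : Odd (Module.finrank R L)) : Module.finrank R L = 1 := by
  obtain ⟨α, hα⟩ := Field.exists_primitive_element R L
  have hint : IsIntegral R α := Algebra.IsIntegral.isIntegral α
  have h1 : (minpoly R α).natDegree = Module.finrank R L := by
    rw [← IntermediateField.adjoin.finrank hint, hα, IntermediateField.finrank_top']
  obtain ⟨x, hx⟩ := IsRealClosed.exists_isRoot_of_odd_natDegree (f := minpoly R α) (by rwa [h1])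
  have h2 : (minpoly R α).degree = 1 :=
    Polynomial.degree_eq_one_of_irreducible_of_root (minpoly.irreducible hint) hx
  rw [← h1]
  exact natDegree_eq_of_degree_eq_some h2

end Squares

section Complex

variable {R : Type v} [Field R] [IsRealClosed R] {N : Type u} [Field N] [Algebra R N]
  {I : N} (hI : I ^ 2 = -1)

include hI

theorem mem_adjoin0 (x : N) (hx : x ∈ Algebra.adjoin R ({I} : Set N)) :
    ∃ a b : R, x = algebraMap R N a + algebraMap R N b * I := by
  induction hx using Algebra.adjoin_induction with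
  | mem x hx =>
      rw [Set.mem_singleton_iff.1 hx]
      exact ⟨0, 1, by simp⟩
  | algebraMap r => exact ⟨r, 0, by simp⟩
  | add x y _ _ h1 h2 =>
      obtain ⟨a, b, h⟩ := h1
      obtain ⟨c, d, h'⟩ := h2
      exact ⟨a + c, b + d, by rw [h, h', map_add, map_add]; ring⟩
  | mul x y _ _ h1 h2 =>
      obtain ⟨a, b, h⟩ := h1
      obtain ⟨c, d, h'⟩ := h2
      refine ⟨a * c - b * d, a * d + b * c, ?_⟩
      rw [h, h', map_add, map_sub, map_mul, map_mul, map_mul, map_mul]
      linear_combination (algebraMap R N b * algebraMap R N d) * hI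

theorem isIntegral_I : IsIntegral R I := by
  refine ⟨X ^ 2 + 1, by monicity!, ?_⟩
  simp [hI]

theorem mem_adjoin (x : N) (hx : x ∈ IntermediateField.adjoin R ({I} : Set N)) :
    ∃ a b : R, x = algebraMap R N a + algebraMap R N b * I := by
  apply mem_adjoin0 hI
  rw [← IntermediateField.adjoin_simple_toSubalgebra_of_isAlgebraic (isIntegral_I hI).isAlgebraic]
  exact hx

theorem mem_adjoin' (a b : R) : algebraMap R N a + algebraMap R N b * I ∈
    IntermediateField.adjoin R ({I} : Set N) :=
  add_mem (IntermediateField.algebraMap_mem _ a) (mul_mem (IntermediateField.algebraMap_mem _ b)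
    (IntermediateField.mem_adjoin_simple_self R I))

/-- An element whose square is in `R(I)` is in `R(I)`. -/
theorem mem_of_sq_mem {x : N} (hx : x ^ 2 ∈ IntermediateField.adjoin R ({I} : Set N)) :
    x ∈ IntermediateField.adjoin R ({I} : Set N) := by
  obtain ⟨a, b, h⟩ := mem_adjoin hI _ hx
  obtain ⟨p, q, h1, h2⟩ := exists_sqrt a b
  have h3 : x ^ 2 = (algebraMap R N p + algebraMap R N q * I) ^ 2 := by
    rw [h, ← h1, ← h2, map_sub, map_pow, map_pow, map_mul, map_mul]
    simp only [map_ofNat]
    linear_combination (-(algebraMap R N q) ^ 2) * hI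
  rcases sq_eq_sq_iff_eq_or_eq_neg.1 h3 with h4 | h4
  · rw [h4]; exact mem_adjoin' hI p q
  · rw [h4]; exact neg_mem (mem_adjoin' hI p q)

theorem mem_of_quadratic {x p q : N} (hp : p ∈ IntermediateField.adjoin R ({I} : Set N))
    (hq : q ∈ IntermediateField.adjoin R ({I} : Set N)) (hx : x ^ 2 + p * x + q = 0) :
    x ∈ IntermediateField.adjoin R ({I} : Set N) := by
  have h2' : (2 : R) ≠ 0 := by exact_mod_cast (two_ne_zero : (2 : ℕ) ≠ 0)
  have h2 : (2 : N) ≠ 0 := by
    intro h
    apply h2'
    apply (algebraMap R N).injective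
    rw [map_ofNat, map_zero, h]
  have h2m : (2 : N) ∈ IntermediateField.adjoin R ({I} : Set N) := by
    have := IntermediateField.algebraMap_mem (IntermediateField.adjoin R ({I} : Set N)) (2 : R)
    rwa [map_ofNat] at this
  have h4m : (4 : N) ∈ IntermediateField.adjoin R ({I} : Set N) := by
    have := IntermediateField.algebraMap_mem (IntermediateField.adjoin R ({I} : Set N)) (4 : R)
    rwa [map_ofNat] at this
  have h3 : 2 * x + p ∈ IntermediateField.adjoin R ({I} : Set N) := by
    apply mem_of_sq_mem hI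
    have h4 : (2 * x + p) ^ 2 = p ^ 2 - 4 * q := by linear_combination 4 * hx
    rw [h4]
    exact sub_mem (pow_mem hp 2) (mul_mem h4m hq)
  have h5 : x = ((2 * x + p) - p) / 2 := by
    field_simp
    ring
  rw [h5]
  exact div_mem (sub_mem h3 hp) h2m

section Galois

variable [FiniteDimensional R N] [IsGalois R N]

theorem card_gal : ∃ m : ℕ, Nat.card (N ≃ₐ[R] N) = 2 ^ m := by
  classical
  let P : Sylow 2 (N ≃ₐ[R] N) := default
  let F : IntermediateField R N := IntermediateField.fixedField (P : Subgroup (N ≃ₐ[R] N))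
  have h1 : Module.finrank F N = Nat.card (P : Subgroup (N ≃ₐ[R] N)) :=
    IntermediateField.finrank_fixedField_eq_card _
  have h2 : Module.finrank R F * Module.finrank F N = Module.finrank R N :=
    Module.finrank_mul_finrank R F N
  have h3 : Nat.card (N ≃ₐ[R] N) = Module.finrank R N := IsGalois.card_aut_eq_finrank R N
  have h4 : (P : Subgroup (N ≃ₐ[R] N)).index * Nat.card (P : Subgroup (N ≃ₐ[R] N)) =
      Nat.card (N ≃ₐ[R] N) := Subgroup.index_mul_card _
  have h5 : 0 < Nat.card (P : Subgroup (N ≃ₐ[R] N)) := Nat.card_pos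
  have h6 : Module.finrank R F = (P : Subgroup (N ≃ₐ[R] N)).index := by
    apply Nat.eq_of_mul_eq_mul_right h5
    rw [h4, h3, ← h2, h1]
  have h7 : Odd (Module.finrank R F) := by
    rw [h6, ← Nat.not_even_iff_odd, even_iff_two_dvd]
    exact P.not_dvd_index
  have h8 := finrank_eq_one h7
  obtain ⟨m, hm⟩ := IsPGroup.iff_card.1 P.isPGroup'
  refine ⟨m, ?_⟩
  rw [← h4, ← h6, h8, one_mul]
  exact hm

theorem adjoin_eq_top : IntermediateField.adjoin R ({I} : Set N) = ⊤ := by
  classical
  set K1 : IntermediateField R N := IntermediateField.adjoin R ({I} : Set N) with hK1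
  haveI : Fact (Nat.Prime 2) := ⟨Nat.prime_two⟩
  let H : Subgroup (N ≃ₐ[R] N) := K1.fixingSubgroup
  have hH : Nat.card H = Module.finrank K1 N := IsGalois.card_fixingSubgroup_eq_finrank K1
  obtain ⟨m, hm⟩ := card_gal (R := R) (N := N) hI
  obtain ⟨k, hk, hk'⟩ : ∃ k ≤ m, Nat.card H = 2 ^ k := by
    have h1 : Nat.card H ∣ 2 ^ m := by
      rw [← hm]
      exact Subgroup.card_subgroup_dvd_card H
    exact (Nat.dvd_prime_pow Nat.prime_two).1 h1
  rcases Nat.eq_zero_or_pos k with h0 | hpos
  · have h1 : Module.finrank K1 N = 1 := by rw [← hH, hk', h0, pow_zero]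
    exact IntermediateField.finrank_eq_one_iff_eq_top.1 h1
  · exfalso
    obtain ⟨H2, hH2⟩ := Sylow.exists_subgroup_card_pow_prime (G := H) 2 (n := k - 1) (by
      rw [hk']; exact pow_dvd_pow 2 (Nat.sub_le k 1))
    let H' : Subgroup (N ≃ₐ[R] N) := H2.map H.subtype
    have hH' : Nat.card H' = 2 ^ (k - 1) := by
      rw [← hH2]
      exact Nat.card_congr (H2.equivMapOfInjective H.subtype H.subtype_injective).toEquiv.symm
    let E : IntermediateField R N := IntermediateField.fixedField H'
    have hle : K1 ≤ E := by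
      rw [IntermediateField.le_iff_le]
      rintro _ ⟨x, _, rfl⟩
      exact x.2
    have hE : Module.finrank E N = 2 ^ (k - 1) := by
      rw [← hH']
      exact IntermediateField.finrank_fixedField_eq_card _
    have hmul := IntermediateField.relfinrank_mul_finrank_top hle
    have hrel : IntermediateField.relfinrank K1 E = 2 := by
      rw [hE, ← hH, hk'] at hmul
      have h2 : 2 ^ k = 2 * 2 ^ (k - 1) := by
        rw [← pow_succ', Nat.sub_add_cancel hpos]
      rw [h2] at hmul
      exact Nat.eq_of_mul_eq_mul_right (by positivity) hmul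
    have hEle : E ≤ K1 := by
      intro x hx
      rw [IntermediateField.relfinrank_eq_finrank_of_le hle] at hrel
      let L : IntermediateField K1 N := IntermediateField.extendScalars hle
      let x' : L := ⟨x, hx⟩
      haveI : FiniteDimensional K1 L := inferInstance
      have hdeg : (minpoly K1 x').natDegree ≤ 2 := by
        have := minpoly.natDegree_le (A := K1) x'
        rwa [hrel] at this
      have hmp : aeval x (minpoly K1 x') = 0 := by
        have h1 := minpoly.aeval K1 x'
        have h2 : aeval (algebraMap L N x') (minpoly K1 x') =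
            algebraMap L N (aeval x' (minpoly K1 x')) := aeval_algebraMap_apply N x' _
        rw [h1, map_zero] at h2
        exact h2
      have hmon : (minpoly K1 x').Monic := minpoly.monic (Algebra.IsIntegral.isIntegral x')
      rw [Polynomial.aeval_eq_sum_range' (n := 3) (by omega)] at hmp
      simp only [Finset.sum_range_succ, Finset.sum_range_zero, zero_add, pow_zero, pow_one] at hmp
      have hnd : (minpoly K1 x').natDegree ≠ 0 :=
        (minpoly.natDegree_pos (Algebra.IsIntegral.isIntegral x')).ne'
      rcases (by omega : (minpoly K1 x').natDegree = 1 ∨ (minpoly K1 x').natDegree = 2) with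
        h | h
      · have hc1 : (minpoly K1 x').coeff 1 = 1 := by
          rw [← h]; exact hmon.coeff_natDegree
        have hc2 : (minpoly K1 x').coeff 2 = 0 := coeff_eq_zero_of_natDegree_lt (by omega)
        rw [hc1, hc2] at hmp
        simp only [Algebra.smul_def, map_zero, map_one, zero_mul, one_mul, mul_one, add_zero] at hmp
        have h3 : x = -((minpoly K1 x').coeff 0 : N) := by
          have h4 : algebraMap K1 N ((minpoly K1 x').coeff 0) = ((minpoly K1 x').coeff 0 : N) := rfl
          rw [h4] at hmp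
          linear_combination hmp
        rw [h3]
        exact neg_mem ((minpoly K1 x').coeff 0).2
      · have hc2 : (minpoly K1 x').coeff 2 = 1 := by
          rw [← h]; exact hmon.coeff_natDegree
        rw [hc2] at hmp
        simp only [Algebra.smul_def, map_one, one_mul, mul_one] at hmp
        refine mem_of_quadratic hI ((minpoly K1 x').coeff 1).2 ((minpoly K1 x').coeff 0).2 ?_
        have h4 : algebraMap K1 N ((minpoly K1 x').coeff 0) = ((minpoly K1 x').coeff 0 : N) := rfl
        have h5 : algebraMap K1 N ((minpoly K1 x').coeff 1) = ((minpoly K1 x').coeff 1 : N) := rfl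
        rw [h4, h5] at hmp
        linear_combination hmp
    have heq : K1 = E := le_antisymm hle hEle
    have h7 : Module.finrank K1 N = Module.finrank E N := by rw [heq]
    rw [← hH, hk', hE] at h7
    have h8 : k = k - 1 := Nat.pow_right_injective (le_refl 2) h7
    omega

end Galois

end Complex

/-- In an algebraic extension. -/
theorem exists_ab {R : Type v} [Field R] [IsRealClosed R] {A : Type u} [Field A] [Algebra R A] [Algebra.IsAlgebraic R A] [IsAlgClosed A]
    {J : A} (hJ : J ^ 2 = -1) (x : A) :
    ∃ a b : R, x = algebraMap R A a + algebraMap R A b * J := by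
  classical
  haveI : IsAlgClosure R A := ⟨inferInstance, inferInstance⟩
  haveI : Normal R A := IsAlgClosure.normal R A
  let E0 : IntermediateField R A := IntermediateField.adjoin R ({x, J} : Set A)
  haveI : FiniteDimensional R E0 := IntermediateField.finiteDimensional_adjoin
    (fun y _ => Algebra.IsIntegral.isIntegral y)
  let N : IntermediateField R A := IntermediateField.normalClosure R E0 A
  have hle : E0 ≤ N := IntermediateField.le_normalClosure E0
  haveI : FiniteDimensional R N := inferInstance
  haveI : IsGalois R N := { }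
  have hxN : x ∈ N := hle (IntermediateField.subset_adjoin R _ (by simp))
  have hJN : J ∈ N := hle (IntermediateField.subset_adjoin R _ (by simp))
  have hJ' : (⟨J, hJN⟩ : N) ^ 2 = -1 := Subtype.ext hJ
  have htop := adjoin_eq_top (R := R) (N := N) hJ'
  obtain ⟨a, b, hab⟩ := mem_adjoin hJ' (⟨x, hxN⟩ : N) (by rw [htop]; trivial)
  exact ⟨a, b, congrArg Subtype.val hab⟩

/-- Packet L1, first part. -/
theorem fta : FTA.{u, v} := by
  intro R _ _ K _ _ I hI
  set k := IntermediateField.adjoin R ({I} : Set K) with hk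
  haveI : FiniteDimensional R k :=
    IntermediateField.adjoin.finiteDimensional (isIntegral_I hI)
  apply IsAlgClosed.of_exists_root
  intro p _ hp
  let A := AlgebraicClosure k
  letI : Algebra R A := inferInstance
  haveI : Algebra.IsAlgebraic R A := Algebra.IsAlgebraic.trans R k A
  obtain ⟨x, hx⟩ := IsAlgClosed.exists_aeval_eq_zero A p hp.degree_pos.ne'
  let I' : k := ⟨I, IntermediateField.mem_adjoin_simple_self R I⟩
  have hI' : I' ^ 2 = -1 := Subtype.ext hI
  have hJ : (algebraMap k A I') ^ 2 = -1 := by rw [← map_pow, hI', map_neg, map_one]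
  obtain ⟨a, b, hab⟩ := exists_ab (R := R) (A := A) hJ x
  refine ⟨algebraMap R k a + algebraMap R k b * I', ?_⟩
  have h1 : x = algebraMap k A (algebraMap R k a + algebraMap R k b * I') := by
    rw [hab, map_add, map_mul, ← IsScalarTower.algebraMap_apply, ← IsScalarTower.algebraMap_apply]
  rw [h1, aeval_algebraMap_apply] at hx
  have h2 := (algebraMap k A).injective (hx.trans (map_zero _).symm)
  simpa [aeval_def] using h2

/-- Packet L1, second part. -/
theorem irr2 : Irr2.{v} := by
  intro R _ _ p hp
  let A := AlgebraicClosure R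
  obtain ⟨x, hx⟩ := IsAlgClosed.exists_aeval_eq_zero A p hp.degree_pos.ne'
  obtain ⟨J, hJ⟩ := IsAlgClosed.exists_pow_nat_eq (-1 : A) (n := 2) (by norm_num)
  obtain ⟨a, b, hab⟩ := exists_ab (R := R) (A := A) hJ x
  let q : R[X] := (X - C a) ^ 2 + C (b ^ 2)
  have hq : aeval x q = 0 := by
    simp only [q, map_add, map_pow, map_sub, aeval_X, aeval_C]
    rw [hab]
    linear_combination (algebraMap R A b) ^ 2 * hJ
  have hqd : q.natDegree = 2 := by
    have : q = X ^ 2 - C (2 * a) * X + C (a ^ 2 + b ^ 2) := by
      simp only [q, map_add, map_pow, map_mul]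
      rw [map_ofNat]
      ring
    rw [this]
    compute_degree!
  have hq0 : q ≠ 0 := by
    intro h
    rw [h] at hqd
    simp at hqd
  have hdvd : minpoly R x ∣ q := minpoly.dvd R x hq
  have h1 : (minpoly R x).natDegree ≤ 2 := by
    rw [← hqd]
    exact natDegree_le_of_dvd hdvd hq0
  have h2 : Associated (minpoly R x) p := by
    have hdvd2 : minpoly R x ∣ p := minpoly.dvd R x hx
    exact (minpoly.irreducible (Algebra.IsIntegral.isIntegral x)).associated_of_dvd hp hdvd2
  rw [← natDegree_eq_of_degree_eq (degree_eq_degree_of_associated h2)]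
  exact h1

end Pool.Agent.Helper51.Lang.FTA
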